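import Pool.Agent.Run7.h462.Right
import Pool.Agent.Run7.h462.Down

/-!
# The critical exponent for density of complex spans of `(z-a)/|z-a|^3`

`Run7.h462.kern a z = (z - a) / |z - a|^3`, `Run7.h462.XC` is the complex span of these kernels
and `Run7.h462.ClosureIsAll p` says that the closure of `XC ∩ L^p(ℂ)` in `L^p(ℂ)` is `L^p(ℂ)`.
The set of exponents `p ∈ (0,1)` with this property is an interval `(0, pc)`, open at its
right end.
-/

open Run7.h462

theorem Pool.Agent.Results.MP_440970_an.CriticalExponent.result :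
    ∃ pc : ℝ, 0 ≤ pc ∧ pc ≤ 1 ∧
      ∀ p : ℝ, 0 < p → p < 1 → (ClosureIsAll p ↔ p < pc) := by
  set A : Set ℝ := {p | 0 < p ∧ p < 1 ∧ ClosureIsAll p} with hA
  have hbdd : BddAbove A := ⟨1, fun p hp => hp.2.1.le⟩
  rcases A.eq_empty_or_nonempty with he | hne
  · refine ⟨0, le_rfl, zero_le_one, fun p hp0 hp1 => ?_⟩
    constructor
    · intro h
      exact absurd (show p ∈ A from ⟨hp0, hp1, h⟩) (by rw [he]; exact Set.notMem_empty _)
    · intro h
      linarith
  · refine ⟨sSup A, ?_, csSup_le hne fun p hp => hp.2.1.le, fun p hp0 hp1 => ?_⟩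
    · obtain ⟨a, ha⟩ := hne
      exact ha.1.le.trans (le_csSup hbdd ha)
    · constructor
      · intro h
        obtain ⟨q, hpq, hq1, hq⟩ := right_open hp0 hp1 h
        have hm : (p + q) / 2 ∈ A :=
          ⟨by linarith, by linarith, hq _ (by linarith) (by linarith)⟩
        have := le_csSup hbdd hm
        linarith
      · intro h
        obtain ⟨a, ha, hpa⟩ := exists_lt_of_lt_csSup hne h
        exact down hp0 hpa.le ha.2.1 ha.2.2
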